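import Pool.Agent.Work.MP_db9399_x4.XF4

/-!
# MP_db9399: the blocks of OCB4, own colours of the pieces of type B (helper1)

Quarters `(n, β, i)` (piece, side, part). `q n β i b` = number of slots for the colour `b` (vertices of the
quarter which get `c1 = b`): half of the need for `b ∈ P1`, `5 K + 5` for `b ∈ P2n`, side `false`, and
`- sg b` for `b ∈ Qn (!i)`, side `false`. Classes `kc`: 3 = small needs (at most `X1`, constant) and `P2n`,
2 = `Qn (!i)`, 1 = needs in `(X1, X0]`, `X0 = d ^ (c' / 4)`, 4 = larger needs.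

Order: HRD, RSV reserved vertices of the short pieces of type K for the hard colours `Hd`; AVB
available vertices `Av`; DEM the numbers `q`; IDX random regions `rg` of the vertices (0 = no slots,
1 = classes 1 and 4, 2, 3), random blocks `τ : V → range m0`, `m0 = d ^ (1 - c' / 2)` (about
`d ^ (c' / 2)` vertices of every quarter in a block), random block `σ` of every slot of the classes 1, 2,
3; all properties are linear tests (IDL). GRD: slots are chosen greedily in their blocks. Conflicts =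
T-edges (thin edges between vertices of type B) between slots of the same colour. In the same
cluster they are avoided greedily (typical vertices: `b`-free degree at most `√θ d / (x + x')`), between
different clusters by `PotN` (no neighbour in another cluster whose block may contain a slot of
colour `b`). LRG: class 4, twice as many random picks as necessary, then deletion (DEL). BAS: `c0`.
-/

set_option autoImplicit false

namespace Pool.Agent.Work.MP_db9399_oc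

open Finset Classical
open Pool.Agent.Work.MP_db9399_all (nb)
open Pool.Agent.Work.MP_db9399_lt (us)
open Pool.Agent.Work.MP_db9399_da hiding qV
open Pool.Agent.Work.MP_db9399_xf
open Pool.Agent.Work.MP_db9399_x4

universe u

/-! ## Abstract blocks -/

/-- mean of a test with the active variables `A`, given the other variables of `x` -/
noncomputable def mn {I : Type u} (m : I → ℕ) (A : Finset I) (w : (I → ℕ) → I → ℝ)
    (x : I → ℕ) : ℝ :=
  ∑ i ∈ A, (∑ a ∈ range (m i), w (Function.update x i a) i) / m i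

/-- Tests. `S k` = variables of the test `k`, `A k` = active ones; the weight `w k x i` of `i ∈ A k`
depends on `x i` and on the passive variables. -/
structure Tst {I K : Type u} [Fintype K] (B : ℝ) (m : I → ℕ) (S A : K → Finset I)
    (w : K → (I → ℕ) → I → ℝ) (W : K → ℝ) : Prop where
  AS : ∀ k, A k ⊆ S k
  Sc : ∀ k, ((S k).card : ℝ) ≤ B
  Kc : ∀ i, ((univ.filter (fun k => i ∈ S k)).card : ℝ) ≤ B
  w0 : ∀ k x, (∀ j, x j < m j) → ∀ i ∈ A k, 0 ≤ w k x i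
  wW : ∀ k x, (∀ j, x j < m j) → ∀ i ∈ A k, w k x i ≤ W k
  W0 : ∀ k, 0 ≤ W k
  dep : ∀ k, ∀ i ∈ A k, ∀ x y : I → ℕ, x i = y i → (∀ j ∈ S k \ A k, x j = y j) →
    w k x i = w k y i

/-- `P` follows from a family of tests. `B` bounds the dependencies, `δ` relative and `L` absolute
error. -/
def IPk {I : Type u} (B δ L : ℝ) (m : I → ℕ) (P : (I → ℕ) → Prop) : Prop :=
  ∃ (K : Type u) (_ : Fintype K) (S A : K → Finset I) (w : K → (I → ℕ) → I → ℝ) (μ W : K → ℝ),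
    Tst B m S A w W ∧ ∀ x : I → ℕ, (∀ i, x i < m i) →
      (∀ k, (mn m (A k) (w k) x ≤ μ k → ∑ i ∈ A k, w k x i ≤ (1 + δ) * μ k + W k * L) ∧
        (μ k ≤ mn m (A k) (w k) x → (1 - δ) * μ k - W k * L ≤ ∑ i ∈ A k, w k x i)) → P x

/-- IDL (abstract). PROOF. `Stmt_SYM` (symmetric local lemma, `ow` interface, proved) with
`M = ∏ m i`, `x i = f i % m i`, for the events that a test `k` fails. Probability: given the passive
variables the sum is a sum of independent variables in `[0, W]`; upper tail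
`E exp (δ X / W) ≤ exp ((exp δ - 1) μ / W)`, `exp δ - 1 - δ ≤ δ ^ 2`, so the probability is at most
`exp (- δ log ^ 2 d)`; same for the lower tail. -/
def Stmt_IDL : Prop :=
  ∀ (n : ℕ) (δ r : ℝ), 0 < δ → δ ≤ 1 → 0 < r → ∃ d0 : ℕ, ∀ {I : Type u} [Fintype I] (d : ℕ)
    (m : I → ℕ) (P : Fin n → (I → ℕ) → Prop), d0 ≤ d → (∀ i, 0 < m i) →
    (∀ j, IPk ((d : ℝ) ^ r) δ ((Real.log d) ^ 2) m (P j)) →
    ∃ x : I → ℕ, (∀ i, x i < m i) ∧ ∀ j, P j x

/-- RCH (abstract): random choice from lists with conflicts, weighted tests. PROOF. As `rlc2`,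
`rlc3` (`iv_helper38/RLC2.lean`, `RLC3.lean`) with a general conflict relation. -/
def Stmt_RCH : Prop :=
  ∀ r : ℝ, 0 < r → ∃ d0 : ℕ, ∀ {I K β : Type u} [Fintype I] [Fintype K] [Nonempty β] (d : ℕ)
    (L : I → Finset β) (cf : I → β → I → β → Prop) (w : K → I → β → ℕ) (W : K → ℕ) (μ : K → ℝ),
    d0 ≤ d → (∀ i, (L i).Nonempty) → (∀ i y i' y', cf i y i' y' → cf i' y' i y) →
    (∀ i y y', ¬ cf i y i y') →
    (∀ i, ∀ y ∈ L i, ∑ i', (((L i').filter (fun y' => cf i y i' y')).card : ℝ) / (L i').card ≤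
      1 / 40) →
    (∀ k i, ∀ y ∈ L i, w k i y ≤ W k) → (∀ k, W k ≤ d ^ 2) →
    (∀ i, ((univ.filter (fun k => ∃ y ∈ L i, w k i y ≠ 0)).card : ℝ) ≤ (d : ℝ) ^ r) →
    (∀ k, ∑ i, (∑ y ∈ L i, (w k i y : ℝ)) / (L i).card ≤ μ k) →
    ∃ f : I → β, (∀ i, f i ∈ L i) ∧ (∀ i i', ¬ cf i (f i) i' (f i')) ∧
      ∀ k, ∑ i, (w k i (f i) : ℝ) ≤ 200 * μ k + 200 * W k * (Real.log d) ^ 2

/-- DEL (abstract, idea of helper2). Groups `γ` with `p γ` picks, uniform and independent in `A γ`.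
`Bd γ v γ' w`: the pick `v` of `γ` is deleted by the pick `w` of `γ'`. PROOF. Event of `γ`: more than half
of the picks are deleted. (1) `D = {v ∈ A γ : deleted by a pick of another group}`: sum over the
picks of the other groups of the numbers of deleted vertices, mean at most `|A γ| / 10`, atoms
`|A γ| / d ^ c`: `|D| ≤ |A γ| / 5` except with probability `exp (- c0 d ^ c)`. (2) Given the other
groups, at most `p γ / 4` picks of `γ` are in `D`, except with this probability. (3) At most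
`p γ / 4` picks are equal to or in relation with an earlier pick of the same group (probability at
most `1 / 20` for every pick, given the earlier ones). Tests: upper tails as in IDL. Local lemma:
`Stmt_SYM`. -/
def Stmt_DEL : Prop :=
  ∀ (c r : ℝ), 0 < c → 0 < r → ∃ d0 : ℕ, ∀ {V Γ K : Type u} [Fintype V] [Fintype Γ] [Fintype K]
    (d : ℕ) (A : Γ → Finset V) (p : Γ → ℕ) (Bd : Γ → V → Γ → V → Prop) (w : K → Γ → V → ℝ)
    (μ W : K → ℝ), d0 ≤ d → (∀ γ, (d : ℝ) ^ c ≤ p γ) → (∀ γ, ((A γ).card : ℝ) ≤ (d : ℝ) ^ r) →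
    (∀ γ, (A γ).Nonempty) →
    (∀ γ, ∀ v ∈ A γ, ∑ γ' ∈ univ.filter (fun γ' => γ' ≠ γ),
      (p γ' : ℝ) * ((A γ').filter (fun w => Bd γ v γ' w)).card / (A γ').card ≤ 1 / 10) →
    (∀ γ γ', γ ≠ γ' → ∀ w ∈ A γ',
      (((A γ).filter (fun v => Bd γ v γ' w)).card : ℝ) ≤ (A γ).card / (d : ℝ) ^ c) →
    (∀ γ v w, Bd γ v γ w → Bd γ w γ v) →
    (∀ γ, ∀ w ∈ A γ,
      20 * (p γ : ℝ) * ((A γ).filter (fun v => v = w ∨ Bd γ v γ w)).card ≤ (A γ).card) →
    (∀ γ, ((univ.filter (fun γ' => ∃ v ∈ A γ, ∃ w ∈ A γ', Bd γ v γ' w ∨ Bd γ' w γ v)).card : ℝ) ≤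
      (d : ℝ) ^ r) →
    (∀ k γ, ∀ v ∈ A γ, 0 ≤ w k γ v ∧ w k γ v ≤ W k) → (∀ k, 0 ≤ W k) →
    (∀ k, ((univ.filter (fun γ => ∃ v ∈ A γ, w k γ v ≠ 0)).card : ℝ) ≤ (d : ℝ) ^ r) →
    (∀ γ, ((univ.filter (fun k => ∃ v ∈ A γ, w k γ v ≠ 0)).card : ℝ) ≤ (d : ℝ) ^ r) →
    (∀ k, ∑ γ, (p γ : ℝ) * (∑ v ∈ A γ, w k γ v) / (A γ).card ≤ μ k) →
    ∃ S : Γ → Finset V, (∀ γ, S γ ⊆ A γ) ∧ (∀ γ, p γ ≤ 2 * (S γ).card) ∧
      (∀ γ γ', ∀ v ∈ S γ, ∀ w ∈ S γ', γ ≠ γ' ∨ v ≠ w → ¬ Bd γ v γ' w) ∧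
      ∀ k, ∑ γ, ∑ v ∈ S γ, w k γ v ≤ 2 * μ k + W k * (Real.log d) ^ 2

/-! ## Data -/

/-- constants; `X1` bound for the small needs -/
structure Con where
  πk : ℝ
  C : ℝ
  g : ℝ
  z : ℝ
  τ : ℝ
  e : ℝ
  η' : ℝ
  M : ℕ
  X1 : ℕ

/-- conditions for the constants -/
structure Con.Ok (k : Con) : Prop where
  π1 : 1 / 4 ≤ k.πk
  π2 : k.πk < 1 / 3
  C1 : 1 ≤ k.C
  g0 : 0 < k.g
  g1 : k.g ≤ 1 / 10
  z0 : 0 < k.z
  z1 : k.z ≤ 1 / 10
  τ0 : 0 < k.τ
  τe : 64 * k.τ ≤ k.e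
  ez : k.e ≤ k.z / 4
  η0 : 0 < k.η'
  η1 : k.η' ≤ k.z / 200
  XK : 2 * KX4 k.C k.πk ≤ k.X1
  XC : 1000 * (k.C + 5) ≤ k.X1
  Xη : 2 * k.C ≤ k.η' * k.X1

/-- All data. `c` own colours of `V0` (RGX4), `cN` of `V0` and the pieces of type N (OWNX4); `K`, `X1`,
`X0` thresholds for the needs, `m0` number of blocks. -/
structure OD (V : Type u) (N J : ℕ) where
  G : SimpleGraph V
  d : ℕ
  X : XD V N J
  S : Fin J → Scl
  A : PalX
  t : V → V → ℕ
  c : V → ℕ
  cN : V → ℕ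
  Ex : V → Finset ℕ
  Qn : Fin N → Bool → Finset ℕ
  P2n : Fin N → Finset ℕ
  x0 : Fin J → ℝ
  θk : ℝ
  θ' : ℝ
  η : ℝ
  K : ℕ
  X1 : ℕ
  X0 : ℕ
  m0 : ℕ

/-- hypotheses of OCB4 -/
structure Hyp {V : Type u} [Fintype V] {N J : ℕ} (k : Con) (c' : ℝ) (D : OD V N J) : Prop where
  θk1 : D.θk ≤ 1 / 100
  θ1 : D.θ' ≤ k.z / 100
  η1 : D.η ≤ k.z / 100
  hv : ∀ v ∈ D.X.Hv, InT D.X Ty.K v
  pc : PcX k.C k.g k.z D.θk D.θ' D.η ((D.d : ℝ) ^ (-c')) k.M D.S D.G D.d D.X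
  pal : PalXP k.πk D.A D.d
  rg : RgX4 k.πk k.C ((D.d : ℝ) ^ (-c')) D.η k.τ (k.e / 4) D.S D.G D.d D.X D.A D.t D.c D.Ex
  sel : SelX4 (KX4 k.C k.πk) k.g D.x0 D.S D.G D.d D.X D.t D.c D.Qn D.P2n
  own : OwnX k.τ (k.e / 2) D.S D.G D.d D.X D.t D.c D.Qn D.P2n D.cN
  K : D.K = KX4 k.C k.πk
  X1 : D.X1 = k.X1
  X0 : D.X0 = ⌊(D.d : ℝ) ^ (c' / 4)⌋₊
  m0 : D.m0 = ⌊(D.d : ℝ) ^ (1 - c' / 2)⌋₊

/-- the general form of the blocks -/
def Blk (Q : ∀ (V : Type u) [Fintype V] (N J : ℕ), Con → ℝ → OD V N J → Prop) : Prop :=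
  ∀ k : Con, k.Ok → ∃ T : Thr, T.Pos ∧
    ∀ (J : ℕ) (S : Fin J → Scl) (c' : ℝ), (∀ s, Adm T (S s)) → 0 < c' → c' ≤ 1 / 2 → ∃ d0 : ℕ,
    ∀ {V : Type u} [Fintype V] {N : ℕ} (D : OD V N J), d0 ≤ D.d → D.S = S → Hyp k c' D →
      Q V N J k c' D

/-- number of the slots in the quarter `(n, β, i)` with colours in `B` and index `j` -/
def nsl {N : ℕ} (q : Fin N → Bool → Bool → ℕ → ℕ) (σ : Fin N → Bool → Bool → ℕ → ℕ → ℕ)
    (n : Fin N) (β i : Bool) (B : Finset ℕ) (j : ℕ) : ℕ :=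
  ∑ b ∈ B, ((range (q n β i b)).filter (fun k => σ n β i b k = j)).card

namespace OD

variable {V : Type u} [Fintype V] {N J : ℕ} (D : OD V N J)

/-- constants of the scale of the piece `n` -/
def sl (D : OD V N J) (n : Fin N) : Scl := D.S (D.X.sc n)

/-- need of `b` at the side `β` of the piece `n` -/
noncomputable def nd (n : Fin N) (β : Bool) (b : ℕ) : ℕ :=
  need (Fp (xt D.G D.X) D.X D.t n) (sdn D.X.P n) β b

/-- signed number of `b` -/
noncomputable def sn (n : Fin N) (b : ℕ) : ℤ := sg (Fp (xt D.G D.X) D.X D.t n) (sdn D.X.P n) b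

/-- colours of the edges of `xt` at `v` -/
noncomputable def F (v : V) : Finset ℕ := Ft (xt D.G D.X) D.t v

/-- need of `b` at the side of the vertex `v` -/
noncomputable def ndv (v : V) (b : ℕ) : ℕ := D.nd (D.X.P.pc v) (D.X.P.sd v) b

/-- `b` is free at the vertex `v` of type B and not exceptional -/
def fr (v : V) (b : ℕ) : Prop := InT D.X Ty.B v ∧ b ∉ D.F v ∧ b ∉ D.Ex v

/-- number of the T-edges from `v` to the side `β` of `n` with `b` free at the other end -/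
noncomputable def dg (v : V) (n : Fin N) (β : Bool) (b : ℕ) : ℕ :=
  ((sV D.X.P n β).filter (fun w => Te D.G D.X v w ∧ D.fr w b)).card

/-- the piece `n` is in the cluster `k` -/
def inC (n : Fin N) (k : ℕ) : Prop := ∃ v ∈ pV D.X.P n, D.X.cq v = some k

/-- typical vertices for the colour `b` -/
structure typ (v : V) (b : ℕ) : Prop where
  thin : ((nb (thin D.G D.X.P) v).card : ℝ) ≤ Real.sqrt (D.sl (D.X.P.pc v)).θ * D.d
  R : ((∑ c ∈ D.F v, D.ndv v c : ℕ) : ℝ) ≤ Real.sqrt (D.sl (D.X.P.pc v)).θ * D.d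
  dg : ∀ m β, D.X.P.ty m = Ty.B → (∃ w ∈ pV D.X.P m, D.X.cq w = D.X.cq v) →
    D.K < D.ndv v b → D.K < D.nd m β b →
    (D.dg v m β b : ℝ) * (D.ndv v b + D.nd m β b) ≤ Real.sqrt (D.sl (D.X.P.pc v)).θ * D.d

/-- the vertices of the quarter `(n, β, i)` which are available for the colour `b` -/
noncomputable def Av (U : Finset V) (cR : V → ℕ) (n : Fin N) (β i : Bool) (b : ℕ) : Finset V :=
  (qV D.X n β i).filter (fun v => D.fr v b ∧ D.typ v b ∧
    (∀ w, Owd D.X w → D.G.Adj v w → D.cN w ≠ b) ∧ ∀ y ∈ U, D.G.Adj v y → cR y ≠ b)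

/-- special colours of the piece `n`: own colours of vertices with many neighbours in `n` -/
noncomputable def Spc (n : Fin N) : Finset ℕ :=
  (range (D.d + 2)).filter (fun b => ∃ w, Owd D.X w ∧ D.cN w = b ∧
    (D.sl n).ζ / 1000 * D.d ≤ ((nb D.G w ∩ pV D.X.P n).card : ℝ))

/-- the colours `P1` of the piece `n` -/
noncomputable def P (n : Fin N) : Finset ℕ := P1 D.d (D.Qn n) (D.P2n n)

/-- class of the slots of colour `b` in the quarter `(n, β, i)` -/
noncomputable def kc (n : Fin N) (β i : Bool) (b : ℕ) : ℕ :=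
  if b ∈ D.Qn n (!i) then 2 else if b ∈ D.P2n n then 3 else if b ∈ D.P n then
    (if D.nd n β b ≤ D.X1 then 3 else if D.nd n β b ≤ D.X0 then 1 else 4) else 0

/-- the expected number of edges between the piece `n` of type K and slots of the colour `b` in other
clusters -/
noncomputable def hx (n : Fin N) (b : ℕ) : ℝ :=
  ∑ v ∈ pV D.X.P n, ∑ w ∈ (nb D.G v).filter (fun w => InT D.X Ty.B w ∧ D.X.cq w ≠ D.X.cq v),
    (D.ndv w b : ℝ) / (sV D.X.P (D.X.P.pc w) (D.X.P.sd w)).card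

/-- the hard colours of the cluster `k` -/
noncomputable def Hd (e : ℝ) (k : ℕ) : Finset ℕ :=
  (range (D.d + 2)).filter (fun b =>
    (∃ n β, D.X.P.ty n = Ty.B ∧ D.inC n k ∧ D.X1 < D.nd n β b) ∨
    ∃ n, D.X.P.ty n = Ty.K ∧ D.inC n k ∧ e / (2 * 10 ^ 6) * D.d < D.hx n b)

/-- reserved vertices -/
structure Rsv (e η' c' : ℝ) (U : Finset V) (cR : V → ℕ) : Prop where
  base : RsvX η' (e / 2) D.G D.d D.X D.t D.cN (Owd D.X) U cR
  hd : ∀ y ∈ U, ∀ k, D.X.cq y = some k → cR y ∈ D.Hd e k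
  hc : ∀ n, D.X.P.ty n = Ty.K → (pV D.X.P n).card < D.d → ∀ k, D.inC n k → ∀ b ∈ D.Hd e k,
    ∃ y ∈ U, D.X.P.pc y = n ∧ cR y = b
  near : ∀ y ∈ U, ∀ m, D.X.P.ty m = Ty.B → (∃ v ∈ pV D.X.P m, D.X.cq v = D.X.cq y) →
    ((nb D.G y ∩ pV D.X.P m).card : ℝ) ≤ Real.sqrt (D.sl m).θ * D.d
  far : ∀ m k, D.X.P.ty m = Ty.B → D.inC m k → ∀ b,
    ((∑ y ∈ U.filter (fun y => cR y = b ∧ D.X.cq y ≠ some k),
      (nb D.G y ∩ pV D.X.P m).card : ℕ) : ℝ) ≤ (D.d : ℝ) ^ (1 - c' / 2)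

/-- numbers of available vertices; `q` = numbers of slots -/
structure AvX (U : Finset V) (cR : V → ℕ) (q : Fin N → Bool → Bool → ℕ → ℕ) : Prop where
  a1 : ∀ n β i b, D.X.P.ty n = Ty.B → 0 < q n β i b →
    (D.sl n).ζ / 50 * D.d ≤ ((D.Av U cR n β i b).card : ℝ)
  a2 : ∀ n β i b, D.X.P.ty n = Ty.B → b ∈ D.P n → D.X1 < D.nd n β b →
    ((qV D.X n β i).card : ℝ) / 600 ≤ ((D.Av U cR n β i b).card : ℝ)
  a3 : ∀ n β i b, D.X.P.ty n = Ty.B → b < D.d + 2 → b ∉ D.Spc n →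
    ((qV D.X n β i).card : ℝ) - (D.sl n).ζ / 10 * D.d ≤ ((D.Av U cR n β i b).card : ℝ)
  sp : ∀ n, D.X.P.ty n = Ty.B → ((D.Spc n).card : ℝ) * (D.sl n).ζ ≤ 1000 * (D.sl n).θ * D.d

/-- Numbers of slots. `t1`, `t2`, `t3`: sums of the classes. -/
structure Dem (q : Fin N → Bool → Bool → ℕ → ℕ) : Prop where
  p1 : ∀ n, D.X.P.ty n = Ty.B → ∀ β, ∀ b ∈ D.P n, q n β false b + q n β true b = D.nd n β b
  hf : ∀ n, D.X.P.ty n = Ty.B → ∀ β i, ∀ b ∈ D.P n, 2 * q n β i b ≤ D.nd n β b + 1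
  bl : ∀ n, D.X.P.ty n = Ty.B → ∀ β,
    |((∑ b ∈ D.P n, q n β false b : ℕ) : ℤ) - ((∑ b ∈ D.P n, q n β true b : ℕ) : ℤ)| ≤ 1
  p2 : ∀ n, D.X.P.ty n = Ty.B → ∀ i, ∀ b ∈ D.P2n n,
    q n false i b = 5 * D.K + 5 ∧ q n true i b = 0
  pq : ∀ n, D.X.P.ty n = Ty.B → ∀ i, ∀ b ∈ D.Qn n (!i),
    (q n false i b : ℤ) = max (-D.sn n b) 0 ∧ q n true i b = 0
  pz : ∀ n β i b, D.X.P.ty n ≠ Ty.B ∨ D.d + 2 ≤ b ∨ b ∈ D.Qn n i → q n β i b = 0
  q3 : ∀ n β i b, D.kc n β i b ≠ 1 → D.kc n β i b ≠ 4 → q n β i b ≤ D.X1 + 5 * D.K + 5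
  q1 : ∀ n β i b, D.kc n β i b = 1 → q n β i b ≤ D.X0
  t1 : ∀ n, D.X.P.ty n = Ty.B → ∀ β i,
    ((∑ b ∈ (D.P n).filter (fun b => D.X1 < D.nd n β b), q n β i b : ℕ) : ℝ) ≤
      1 / 500000 * (qV D.X n β i).card
  t2 : ∀ n, D.X.P.ty n = Ty.B → ∀ i,
    5 * (D.d : ℝ) * ((∑ b ∈ D.Qn n (!i), q n false i b : ℕ) : ℝ) ≤
      (D.Qn n (!i)).card * ((qV D.X n false i).card + 1)
  t3 : ∀ n, D.X.P.ty n = Ty.B → ∀ β i,
    ((∑ b ∈ (range (D.d + 2)).filter (fun b => D.kc n β i b = 3), q n β i b : ℕ) : ℝ) ≤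
      84 / 100 * (qV D.X n β i).card

/-! ### Random indices -/

/-- a slot of the colour `b` may be at the vertex `w` -/
def Pot (q : Fin N → Bool → Bool → ℕ → ℕ) (τ : V → ℕ)
    (σ : Fin N → Bool → Bool → ℕ → ℕ → ℕ) (w : V) (b : ℕ) : Prop :=
  InT D.X Ty.B w ∧ D.kc (D.X.P.pc w) (D.X.P.sd w) (D.X.P.pt w) b ≠ 4 ∧
    ∃ k < q (D.X.P.pc w) (D.X.P.sd w) (D.X.P.pt w) b,
      σ (D.X.P.pc w) (D.X.P.sd w) (D.X.P.pt w) b k = τ w

/-- such a vertex is a T-neighbour of `v` in another cluster -/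
def PotN (q : Fin N → Bool → Bool → ℕ → ℕ) (τ : V → ℕ)
    (σ : Fin N → Bool → Bool → ℕ → ℕ → ℕ) (v : V) (b : ℕ) : Prop :=
  ∃ w, Te D.G D.X v w ∧ D.X.cq w ≠ D.X.cq v ∧ D.Pot q τ σ w b

/-- regions: `r0` every vertex keeps neighbours without slots, `r2` few neighbours have slots with
colours in `Qn` -/
structure I0 (rg : V → ℕ) : Prop where
  r0 : ∀ n, D.X.P.ty n = Ty.B → ∀ v : Ts D.X.P n, (D.d : ℝ) / 1000 ≤
    (((nb (bk D.G D.X.P n) v ∩ prt (ptn D.X.P n) (ptn D.X.P n v)).filter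
      (fun w => rg w.1 = 0)).card : ℝ)
  r2 : ∀ n, D.X.P.ty n = Ty.B → ∀ v : Ts D.X.P n,
    (((nb (bk D.G D.X.P n) v ∩ prt (ptn D.X.P n) (!(ptn D.X.P n v))).filter
      (fun w => rg w.1 = 2)).card : ℝ) ≤ (D.Qn n (ptn D.X.P n v)).card / 4

/-- capacities of the blocks -/
structure I1 (U : Finset V) (cR : V → ℕ) (rg τ : V → ℕ) : Prop where
  c1 : ∀ n β i b j, D.X.P.ty n = Ty.B → b < D.d + 2 → j < D.m0 →
    (D.sl n).ζ / 50 * D.d ≤ ((D.Av U cR n β i b).card : ℝ) →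
    ((D.Av U cR n β i b).card : ℝ) / (30 * D.m0) ≤
      (((D.Av U cR n β i b).filter (fun v => rg v = 1 ∧ τ v = j)).card : ℝ)
  c2 : ∀ n β i b j, D.X.P.ty n = Ty.B → b < D.d + 2 → j < D.m0 →
    (D.sl n).ζ / 50 * D.d ≤ ((D.Av U cR n β i b).card : ℝ) →
    (D.Qn n (!i)).card * ((D.Av U cR n β i b).card : ℝ) / (23 / 10 * D.d * D.m0) ≤
      (((D.Av U cR n β i b).filter (fun v => rg v = 2 ∧ τ v = j)).card : ℝ)
  c3 : ∀ n β i b j, D.X.P.ty n = Ty.B → b < D.d + 2 → j < D.m0 →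
    (D.sl n).ζ / 50 * D.d ≤ ((D.Av U cR n β i b).card : ℝ) →
    91 / 100 * ((D.Av U cR n β i b).card : ℝ) / D.m0 ≤
      (((D.Av U cR n β i b).filter (fun v => rg v = 3 ∧ τ v = j)).card : ℝ)

/-- loads of the blocks -/
structure I2 (q : Fin N → Bool → Bool → ℕ → ℕ)
    (σ : Fin N → Bool → Bool → ℕ → ℕ → ℕ) : Prop where
  l1 : ∀ n β i j, D.X.P.ty n = Ty.B → j < D.m0 →
    (nsl q σ n β i ((range (D.d + 2)).filter (fun b => D.kc n β i b = 1)) j : ℝ) ≤
      3 / 10 ^ 6 * (qV D.X n β i).card / D.m0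
  l2 : ∀ n β i j, D.X.P.ty n = Ty.B → j < D.m0 →
    (nsl q σ n β i ((range (D.d + 2)).filter (fun b => D.kc n β i b = 2)) j : ℝ) ≤
      1 / 4 * (D.Qn n (!i)).card * (qV D.X n β i).card / (D.d * D.m0)
  l3 : ∀ n β i j, D.X.P.ty n = Ty.B → j < D.m0 →
    (nsl q σ n β i ((range (D.d + 2)).filter (fun b => D.kc n β i b = 3)) j : ℝ) ≤
      86 / 100 * (qV D.X n β i).card / D.m0
  ls : ∀ n β i j, D.X.P.ty n = Ty.B → j < D.m0 →
    (nsl q σ n β i ((D.Spc n).filter (fun b => D.kc n β i b = 2 ∨ D.kc n β i b = 3)) j : ℝ) ≤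
      Real.sqrt (D.sl n).θ * D.d / D.m0

/-- neighbours in the blocks -/
structure I3 (τ : V → ℕ) : Prop where
  ngh : ∀ v n β i b j, D.X.P.ty n = Ty.B → b < D.d + 2 → j < D.m0 →
    (((qV D.X n β i).filter (fun w => Te D.G D.X v w ∧ D.fr w b ∧ τ w = j)).card : ℝ) ≤
      2 * ((qV D.X n β i).filter (fun w => Te D.G D.X v w ∧ D.fr w b)).card / D.m0 +
        (Real.log D.d) ^ 2

/-- few vertices of a block have possible slots in other clusters as neighbours -/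
structure I4 (c' : ℝ) (q : Fin N → Bool → Bool → ℕ → ℕ) (τ : V → ℕ)
    (σ : Fin N → Bool → Bool → ℕ → ℕ → ℕ) : Prop where
  pot : ∀ n β i b j, D.X.P.ty n = Ty.B → b < D.d + 2 → j < D.m0 →
    (((qV D.X n β i).filter (fun v => τ v = j ∧ D.PotN q τ σ v b)).card : ℝ) ≤
      (D.d : ℝ) ^ (3 * c' / 8)

/-- the same for the pieces of type K -/
structure I5 (c' : ℝ) (q : Fin N → Bool → Bool → ℕ → ℕ) (τ : V → ℕ)
    (σ : Fin N → Bool → Bool → ℕ → ℕ → ℕ) : Prop where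
  potK : ∀ n k b, D.X.P.ty n = Ty.K → D.inC n k → b < D.d + 2 →
    ((∑ w ∈ univ.filter (fun w => D.Pot q τ σ w b ∧ D.X.cq w ≠ some k),
      (nb D.G w ∩ pV D.X.P n).card : ℕ) : ℝ) ≤
        (D.d : ℝ) ^ (1 - c' / 8)

/-- bound for the number of slots of one colour in a quarter, classes 1, 2, 3 -/
def Bq : ℕ := D.X0 + D.X1 + 5 * D.K + 5

/-- the variables: one for every vertex (block and region), one for every slot -/
abbrev IV (D : OD V N J) : Type u :=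
  V ⊕ (Fin N × Bool × Bool × Fin (D.d + 2) × Fin D.Bq)

/-- ranges of the variables -/
def mv : D.IV → ℕ := Sum.elim (fun _ => D.m0 * D.d) (fun _ => D.m0)

/-- block of the vertex `v` -/
def tauX (x : D.IV → ℕ) (v : V) : ℕ := x (Sum.inl v) % D.m0

/-- region of the vertex `v` -/
noncomputable def rgX (x : D.IV → ℕ) (v : V) : ℕ :=
  if 25 * (x (Sum.inl v) / D.m0) < D.d then 0
  else if 25 * (x (Sum.inl v) / D.m0) < 2 * D.d then 1
  else if ((x (Sum.inl v) / D.m0 : ℕ) : ℝ) <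
    2 * D.d / 25 + 10 / 22 * (D.Qn (D.X.P.pc v) (!(D.X.P.pt v))).card then 2 else 3

/-- block of a slot -/
noncomputable def sgX (x : D.IV → ℕ) (n : Fin N) (β i : Bool) (b k : ℕ) : ℕ :=
  if h : b < D.d + 2 ∧ k < D.Bq then x (Sum.inr (n, β, i, ⟨b, h.1⟩, ⟨k, h.2⟩)) else 0

/-- packages for the variables of `D` -/
def Pk (P : (D.IV → ℕ) → Prop) : Prop :=
  IPk ((D.d : ℝ) ^ (40 : ℝ)) (1 / 200) ((Real.log D.d) ^ 2) D.mv P

/-! ### Slots -/

/-- slots of the classes 1, 2, 3 -/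
structure Slt (U : Finset V) (cR : V → ℕ) (q : Fin N → Bool → Bool → ℕ → ℕ) (rg τ : V → ℕ)
    (σ : Fin N → Bool → Bool → ℕ → ℕ → ℕ) (Sl : Fin N → Bool → Bool → ℕ → Finset V) :
    Prop where
  av : ∀ n β i b, Sl n β i b ⊆ D.Av U cR n β i b
  cd : ∀ n β i b, D.X.P.ty n = Ty.B → b < D.d + 2 → D.kc n β i b ≠ 4 →
    (Sl n β i b).card = q n β i b
  c4 : ∀ n β i b, D.X.P.ty n ≠ Ty.B ∨ D.d + 2 ≤ b ∨ D.kc n β i b = 4 → Sl n β i b = ∅
  dj : ∀ n β i b b', b ≠ b' → Disjoint (Sl n β i b) (Sl n β i b')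
  cf : ∀ n β i n' β' i' b, ∀ v ∈ Sl n β i b, ∀ w ∈ Sl n' β' i' b, ¬ Te D.G D.X v w
  rg : ∀ n β i b, ∀ v ∈ Sl n β i b, rg v = D.kc n β i b
  pt : ∀ n β i b, ∀ v ∈ Sl n β i b, D.Pot q τ σ v b

/-- slots of the class 4 -/
structure Lgs (e : ℝ) (U : Finset V) (cR : V → ℕ) (q : Fin N → Bool → Bool → ℕ → ℕ)
    (rg : V → ℕ) (Sl Lg : Fin N → Bool → Bool → ℕ → Finset V) : Prop where
  av : ∀ n β i b, Lg n β i b ⊆ D.Av U cR n β i b
  rg : ∀ n β i b, ∀ v ∈ Lg n β i b, rg v = 1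
  cd : ∀ n β i b, D.X.P.ty n = Ty.B → b < D.d + 2 → D.kc n β i b = 4 →
    (Lg n β i b).card = q n β i b
  c4 : ∀ n β i b, D.X.P.ty n ≠ Ty.B ∨ D.d + 2 ≤ b ∨ D.kc n β i b ≠ 4 → Lg n β i b = ∅
  dj : ∀ n β i b b', b ≠ b' → Disjoint (Lg n β i b) (Lg n β i b')
  ds : ∀ n β i b b', Disjoint (Lg n β i b) (Sl n β i b')
  cf : ∀ n β i n' β' i' b, ∀ v ∈ Lg n β i b, ∀ w ∈ Lg n' β' i' b, ¬ Te D.G D.X v w
  cs : ∀ n β i n' β' i' b, ∀ v ∈ Lg n β i b, ∀ w ∈ Sl n' β' i' b, ¬ Te D.G D.X v w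
  kt : ∀ n k b, D.X.P.ty n = Ty.K → D.inC n k → b ∉ D.Hd e k →
    ((∑ w ∈ univ.filter (fun w => (∃ m β i, w ∈ Lg m β i b) ∧ D.X.cq w ≠ some k),
      (nb D.G w ∩ pV D.X.P n).card : ℕ) : ℝ) ≤ e / 16 * D.d

end OD

/-! ## Blocks -/

/-- HRD. PROOF. Double counting: the sum of the needs of the sides in the cluster `k` is at most
`5 / 6 C d` (`totB`, `clc`), the sum of `hx n b` over `b` and the pieces `n` of type K of the cluster at
most `M 5 / 6 a d ^ 2` (`totB`, `xs`, `npc`). `Xη`. -/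
def Stmt_HRD : Prop :=
  Blk.{u} (fun _ _ _ _ k _ D => ∀ j, ((D.Hd k.e j).card : ℝ) ≤ k.η' * D.d)

/-- RSV (from RCH). PROOF. Indices `(n, b)`, `n` short of type K in the cluster `k`, `b ∈ Hd k`. List:
light `y ∈ pV n` with `b ∉ F y` (`lK`), no neighbour `w` with `Owd w`, `cN w = b` (at most one with
`τ d` neighbours in `n` by `dif`, it misses `z d` vertices by `kz`; the others: `non`), at most
`√θ d` neighbours in every piece of type B of the cluster (`ths` of this piece): at least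
`4 / 5 z d` vertices (`kh`, `e ≤ z / 4`, `η ≤ z / 100`). Conflicts: same vertex (`η' / (4/5 z)`), adjacent
vertices of different pieces and the same `b` (`kl`: `θ' / (4/5 z)`). Tests: `far`, and `Ub` for the
other clusters (`xs`, `out`, mean `a d ^ 2 / (4/5 z d)`); `Ub` in the own cluster: `b ∈ Hd` would be
reserved in `n`. -/
def Stmt_RSV : Prop :=
  Blk.{u} (fun V _ _ _ k c' D => (∀ j, ((D.Hd k.e j).card : ℝ) ≤ k.η' * D.d) →
    ∃ (U : Finset V) (cR : V → ℕ), D.Rsv k.e k.η' c' U cR)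

/-- DEM. PROOF. Halves of the needs, rounded up and down alternately over the odd needs. `t1`:
`nd ≤ 2 (nd - K)` if `nd > X1 ≥ 2 K`, `excB`, sides equal (`bE`), quarters `bS`. `t2`: `ng`, `Qc`.
`t3`: `totB` and `5 K + 5` for at most `2 π d` colours, `π` small, `|side| ≥ (1 - ζ) d`. `q1`, `q3`:
`hf`, `bdd`. -/
def Stmt_DEM : Prop :=
  Blk.{u} (fun _ _ N _ _ _ D => ∃ q : Fin N → Bool → Bool → ℕ → ℕ, D.Dem q)

/-- AVB. PROOF. Counting. Not typical: `ths`, `Σ_v R = Σ_c need load ≤ |side| 300 θ d`; `dg`: by `tame`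
there are at most `2 * 5 |side| / (x + x') * 300 θ d` edges with `b` free between two sides, so at most
`C' √θ d` vertices for every side of the cluster. Loads `ldB`, `exn`, `Rsv.near` (at most `M` reserved
vertices of the cluster have the colour `b`, `RsvX.Ui`), `Rsv.far`; `Owd` vertices: `sml`
(`1 / 50 ζ d`), at most one big `w` with `cN w = b` (`big`). `a3`: none. `a1`: if `w` is rigid for
`(n, true)` then `cN w ∈ P2n` (`rgP`), side `false`, few neighbours there (`rgd`); rigid for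
`(n, false)`: `cN w` not in `P2n`, `Qn` (`rgQ`), need at the side `false` is 0 (`rgF`), side `true`;
not rigid: `rgm`, `lbw`: at least `ζ / 20 d` vertices of the quarter are not adjacent to `w`. `a2`: `w`
does not cover the side (`cvt`, `XC`) and misses at least `|side| / 400` vertices; `lbw`. -/
def Stmt_AVB : Prop :=
  Blk.{u} (fun V _ N _ k c' D => ∀ (U : Finset V) (cR : V → ℕ)
    (q : Fin N → Bool → Bool → ℕ → ℕ), D.Rsv k.e k.η' c' U cR → D.Dem q → D.AvX U cR q)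

/-- IDX0. PROOF. Linear tests, `bD`, `Qc`. -/
def Stmt_IDX0 : Prop := Blk.{u} (fun _ _ _ _ _ _ D => D.Pk (fun x => D.I0 (D.rgX x)))

/-- IDX1. PROOF. Linear tests; densities `1 / 25`, `|Qn (!i)| / (2.2 d)`,
`23 / 25 - |Qn (!i)| / (2.2 d)`. -/
def Stmt_IDX1 : Prop :=
  Blk.{u} (fun V _ _ _ _ _ D => ∀ (U : Finset V) (cR : V → ℕ),
    D.Pk (fun x => D.I1 U cR (D.rgX x) (D.tauX x)))

/-- IDX2. PROOF. Linear tests for `σ`; `t1`, `t2`, `t3`, `sp` with `q3`. -/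
def Stmt_IDX2 : Prop :=
  Blk.{u} (fun V _ N _ _ _ D => ∀ (U : Finset V) (cR : V → ℕ)
    (q : Fin N → Bool → Bool → ℕ → ℕ), D.Dem q → D.AvX U cR q → D.Pk (fun x => D.I2 q (D.sgX x)))

/-- IDX3. PROOF. Linear tests for `τ`. -/
def Stmt_IDX3 : Prop := Blk.{u} (fun _ _ _ _ _ _ D => D.Pk (fun x => D.I3 (D.tauX x)))

/-- IDX4. PROOF. Let `L = log ^ 2 d`, cross edges = T-edges between different clusters. (T1) for every
block `(r, j)` of a quarter: `Σ_(v in r, τ v = j)` cross degree `≤ 2 a d ^ 2 / m0 + a d L` (linear in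
`τ`, `xs`, `out`). (T2) for quarters `r ≠ r'` of different clusters and blocks `j`, `j'`: at most `2 L`
vertices `v` of the block `(r, j)` have a cross neighbour in the block `(r', j')` (active: `τ` on `r`;
passive: `τ` on the neighbours of `r` in `r'`; the number of `v ∈ r` with such a neighbour is at most the
sum of (T1) for `(r', j')`, so the mean is at most `(2 a d ^ 2 / m0 + a d L) / m0 ≤ 3`). (T3) for
`(r, j, b)`: sum over the slots `(r', b, k)` of the number of `v` of the block `(r, j)` with a cross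
neighbour in the block `(r', σ)`, truncated at `2 L` (active: `σ`; passive: `τ`): mean at most
`X0' / m0` times the sum of (T1), `≤ 5 d ^ (c' / 4)`. -/
def Stmt_IDX4 : Prop :=
  Blk.{u} (fun _ _ N _ _ c' D => ∀ (q : Fin N → Bool → Bool → ℕ → ℕ), D.Dem q →
    D.Pk (fun x => D.I4 c' q (D.tauX x) (D.sgX x)))

/-- IDX5. PROOF. (T1) for a piece `n` of type K and a block `(r, j)`: the number of edges between `n` and
the vertices of the block in other clusters is at most `2 a d ^ 2 / m0 + a d L` (`xs`, `out`,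
linear in `τ`). (T2) for `(n, b)`: sum over the slots `(r, b, k)` of the number of edges between `n` and the
block `(r, σ)`, truncated at this bound, mean at most `X0' a d ^ 2 / m0`. -/
def Stmt_IDX5 : Prop :=
  Blk.{u} (fun _ _ N _ _ c' D => ∀ (q : Fin N → Bool → Bool → ℕ → ℕ), D.Dem q →
    D.Pk (fun x => D.I5 c' q (D.tauX x) (D.sgX x)))

/-- GRD. PROOF. Slots = `(n, β, i, b, k)`, `k < q n β i b`, `kc ≠ 4`. Order: special colours of the
classes 2, 3, other colours of the classes 2, 3, class 1. Greedy choice of a vertex `v` of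
`Av U cR n β i b`, region `kc`, `τ v = σ n β i b k`, not `PotN v b`, not used in this quarter, no
T-edge to an earlier slot of the colour `b` in the same cluster. Capacity `I1`; used: `I2` (slots of the
same region and block); `PotN`: `I4`; T-neighbours of earlier slots in the cluster: classes 2, 3: at most
`4 M (X1 + 5 K + 5)` slots, each blocks at most `2 √θ d / m0 + L` vertices of the block (`typ.thin`,
`I3`); class 1, needs `x` at the side of `v`, `x'` at the other side: `x'` slots, each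
blocks `2 √θ d / ((x + x') m0) + L` (`typ.dg`, `I3`). T-edges between different clusters: `PotN`. -/
def Stmt_GRD : Prop :=
  Blk.{u} (fun V _ N _ k c' D => ∀ (U : Finset V) (cR : V → ℕ)
    (q : Fin N → Bool → Bool → ℕ → ℕ) (rg τ : V → ℕ)
    (σ : Fin N → Bool → Bool → ℕ → ℕ → ℕ), D.Rsv k.e k.η' c' U cR → D.Dem q → D.AvX U cR q →
    (∀ n β i b k', σ n β i b k' < D.m0) → D.I1 U cR rg τ → D.I2 q σ → D.I3 τ → D.I4 c' q τ σ →
    ∃ Sl : Fin N → Bool → Bool → ℕ → Finset V, D.Slt U cR q rg τ σ Sl)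

/-- LRG (from DEL). PROOF. Groups `(n, β, i, b)` with `kc = 4`, `0 < q`; `p = 2 q` (about the need,
`≥ X0 - 1`); `A` = vertices of `Av` in the region 1 which have no slot, not `PotN v b`, no T-neighbour in
the same cluster with a slot of colour `b`: at least `|qV| / 20000` (`a2`, `I1.c1` summed over the blocks:
`|qV| / 18000`; minus `t1`; minus `m0 d ^ (3 c' / 8)`; minus classes 2, 3:
`4 M (X1 + 5 K + 5) √θ d`, class 1: `2 M √θ d`). `Bd`: (1) same quarter, other colour,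
same vertex: sum `≤ (2 / 500000) * 20000 = 0.08`; (2) same colour, T-edge `v w` in the same
cluster: `typ.dg`: `(x' + 1) √θ d / ((x + x') |A|)`, small, weights `√θ d / X0`; (3) same
colour, T-edge between different clusters, `x + x' ≤ 5 nd_v (t v w)` (by `tame` this holds at one end
of every such edge): sum `≤ Σ_(c ∈ F v) 5 nd_v c * 10 ^ 5 / d ≤ 5 * 10 ^ 5 √θ` (`typ.R`), weights
`a d` (`out`). Tests `kt`: mean at most `1.01 * 20000 / 0.49 * hx n b`. Choose `q` elements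
of every `S`. -/
def Stmt_LRG : Prop :=
  Blk.{u} (fun V _ N _ k c' D => ∀ (U : Finset V) (cR : V → ℕ)
    (q : Fin N → Bool → Bool → ℕ → ℕ) (rg τ : V → ℕ)
    (σ : Fin N → Bool → Bool → ℕ → ℕ → ℕ) (Sl : Fin N → Bool → Bool → ℕ → Finset V),
    D.Rsv k.e k.η' c' U cR → D.Dem q → D.AvX U cR q →
    (∀ n β i b k', σ n β i b k' < D.m0) → (∀ v, τ v < D.m0) → D.I1 U cR rg τ → D.I4 c' q τ σ →
    D.Slt U cR q rg τ σ Sl →
    ∃ Lg : Fin N → Bool → Bool → ℕ → Finset V, D.Lgs k.e U cR q rg Sl Lg)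

/-- BAS (from IDL). `Bn v` = forbidden colours. PROOF. Divide `Qn n i` into halves for the sides; list
of `v` = half of `Qn n i` minus `Bn v`, at least `κ d / 5` colours. Divide the colours into `m1`
intervals (groups) of length `⌈d ^ (c' / 2)⌉`; at least `κ m1 / 20` of them contain at least `κ / 20` of
their length from the list of `v`. Choose one of (exactly `⌈κ m1 / 20⌉` of) these groups for every `v`
at random. Tests: T-neighbours of `v` in a group (in the cluster `20 / (κ m1) ζ d`, same scale; other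
clusters `a d`), vertices of a piece in a group, edges between a piece of type K and the vertices in
other clusters with a given group (`xs`, `out`; mean `20 / (κ m1) a d ^ 2`). Then greedily
`c0 v` in list and group, not used by T-neighbours, used less than `T` times in the piece
(`T` = constant depending on `C`, `κ`). In the cluster a colour meets `n` in at most `M T ζ d` edges,
`ζ` small. Edges of the bulk: different halves or different parts. -/
def Stmt_BAS : Prop :=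
  Blk.{u} (fun V _ _ _ k _ D => ∀ Bn : V → Finset ℕ,
    (∀ v, InT D.X Ty.B v → ((Bn v ∩ D.Qn (D.X.P.pc v) (D.X.P.pt v)).card : ℝ) ≤
      (D.Qn (D.X.P.pc v) (D.X.P.pt v)).card / 4 + 3 * (D.sl (D.X.P.pc v)).ζ * D.d) →
    ∃ c0 : V → ℕ,
      (∀ v, InT D.X Ty.B v → c0 v ∈ D.Qn (D.X.P.pc v) (D.X.P.pt v) ∧ c0 v ∉ Bn v) ∧
      (∀ v w, InT D.X Ty.B v → InT D.X Ty.B w → D.G.Adj v w → c0 v ≠ c0 w) ∧
      ∀ n b, D.X.P.ty n = Ty.K →
        ((∑ w ∈ univ.filter (fun w => InT D.X Ty.B w ∧ c0 w = b),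
          (nb D.G w ∩ pV D.X.P n).card : ℕ) : ℝ) ≤ k.e / 8 * D.d)

/-- SAS (from the blocks before BAS): everything except `c0`, for the assembly. -/
def Stmt_SAS : Prop :=
  Blk.{u} (fun V _ N _ k c' D => ∃ (U : Finset V) (cR : V → ℕ)
    (q : Fin N → Bool → Bool → ℕ → ℕ) (rg τ : V → ℕ)
    (σ : Fin N → Bool → Bool → ℕ → ℕ → ℕ) (Sl Lg : Fin N → Bool → Bool → ℕ → Finset V),
    D.Rsv k.e k.η' c' U cR ∧ D.Dem q ∧ D.I0 rg ∧ D.I5 c' q τ σ ∧ D.Slt U cR q rg τ σ Sl ∧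
      D.Lgs k.e U cR q rg Sl Lg)

end Pool.Agent.Work.MP_db9399_oc
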